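import Pool.Agent.Y245.SC.Stm3

set_option autoImplicit false

/-!
# From the Bessel kernel to exponentials
-/

open Complex MeasureTheory Metric Set Filter Topology
open Pool.Agent.Y245.SC

namespace Pool.Agent.Y953.SC

theorem _root_.HasSum.congrY953 {ι : Type} {f g : ι → ℂ} {s : ℂ} (h : HasSum f s)
    (hfg : ∀ i, g i = f i) : HasSum g s := by
  rw [show g = f from funext hfg]
  exact h

/-! ### Uniqueness of power series, circle integrals of series -/

theorem coeff_zero {c : ℕ → ℂ} (h : ∀ t : ℂ, HasSum (fun i => c i * t ^ i) 0) (i : ℕ) :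
    c i = 0 := by
  have h1 : HasFPowerSeriesAt (0 : ℂ → ℂ) (FormalMultilinearSeries.ofScalars ℂ c) 0 := by
    rw [hasFPowerSeriesAt_iff]
    refine Eventually.of_forall fun z => ?_
    have h2 := h z
    simpa [mul_comm] using h2
  have h2 := h1.eq_zero
  have h3 : (FormalMultilinearSeries.ofScalars ℂ c).coeff i = c i :=
    FormalMultilinearSeries.coeff_ofScalars
  rw [← h3, h2]
  simp [FormalMultilinearSeries.coeff]

theorem hasSum_circle {ι : Type} [Countable ι] {c : ℂ} {r : ℝ} (hr : 0 < r) {f : ι → ℂ → ℂ}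
    {g : ℂ → ℂ} {u : ι → ℝ} (hu : Summable u) (hf : ∀ i, ContinuousOn (f i) (sphere c r))
    (hb : ∀ i, ∀ ω ∈ sphere c r, ‖f i ω‖ ≤ u i)
    (hs : ∀ ω ∈ sphere c r, HasSum (fun i => f i ω) (g ω)) :
    HasSum (fun i => ∮ ω in C(c, r), f i ω) (∮ ω in C(c, r), g ω) := by
  have hm : ∀ θ : ℝ, circleMap c r θ ∈ sphere c r := fun θ => circleMap_mem_sphere c hr.le θ
  unfold circleIntegral
  refine intervalIntegral.hasSum_integral_of_dominated_convergence (fun i _ => r * u i) ?_ ?_ ?_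
    ?_ ?_
  · intro i
    have h1 : Continuous fun θ => f i (circleMap c r θ) :=
      (hf i).comp_continuous (continuous_circleMap c r) hm
    have h2 : Continuous fun θ => deriv (circleMap c r) θ := by
      simp only [deriv_circleMap]
      exact (continuous_circleMap 0 r).mul continuous_const
    exact (h2.smul h1).aestronglyMeasurable
  · intro i
    refine Eventually.of_forall fun θ _ => ?_
    rw [norm_smul]
    have h1 : ‖deriv (circleMap c r) θ‖ = r := by
      simp [deriv_circleMap, abs_of_pos hr]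
    rw [h1]
    exact mul_le_mul_of_nonneg_left (hb i _ (hm θ)) hr.le
  · exact Eventually.of_forall fun θ _ => hu.mul_left r
  · exact intervalIntegrable_const
  · refine Eventually.of_forall fun θ _ => ?_
    exact (hs _ (hm θ)).const_smul _

/-! ### The binomial regrouping -/

theorem summable_prod_exp (C K s t : ℝ) (hK : 0 ≤ K) (hs : 0 ≤ s) (ht : 0 ≤ t) :
    Summable fun p : ℕ × ℕ => C * K ^ (p.1 + p.2) * (s ^ p.1 / (p.1.factorial : ℝ)) *
      (t ^ p.2 / (p.2.factorial : ℝ)) := by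
  have h1 : Summable fun n : ℕ => (K * s) ^ n / (n.factorial : ℝ) := Real.summable_pow_div_factorial _
  have h2 : Summable fun n : ℕ => (K * t) ^ n / (n.factorial : ℝ) := Real.summable_pow_div_factorial _
  have h3 := (h1.mul_of_nonneg h2 (fun n => by positivity) (fun n => by positivity)).mul_left C
  refine h3.congr fun p => ?_
  rw [mul_pow, mul_pow, pow_add]
  ring

theorem hasSum_regroup {e : ℕ → ℂ} {C K : ℝ} (hK : 0 ≤ K) (he : ∀ m, ‖e m‖ ≤ C * K ^ m)
    {s t H : ℂ} (hH : HasSum (fun m => e m * ((s + t) ^ m / (m.factorial : ℂ))) H) :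
    HasSum (fun p : ℕ × ℕ => e (p.1 + p.2) * (s ^ p.1 / (p.1.factorial : ℂ)) *
      (t ^ p.2 / (p.2.factorial : ℂ))) H := by
  have hC : 0 ≤ C := by
    have := (norm_nonneg _).trans (he 0)
    simpa using this
  have hsum : Summable (fun p : ℕ × ℕ => e (p.1 + p.2) * (s ^ p.1 / (p.1.factorial : ℂ)) *
      (t ^ p.2 / (p.2.factorial : ℂ))) := by
    refine Summable.of_norm_bounded (summable_prod_exp C K ‖s‖ ‖t‖ hK (norm_nonneg _)
      (norm_nonneg _)) fun p => ?_
    rw [norm_mul, norm_mul, norm_div, norm_div, norm_pow, norm_pow, Complex.norm_natCast,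
      Complex.norm_natCast]
    gcongr
    exact he _
  have h1 := hsum.hasSum
  rw [← Finset.HasAntidiagonal.sigmaAntidiagonalEquivProd.hasSum_iff] at h1
  have h2 := h1.sigma fun m => hasSum_fintype _
  have h3 : ∀ m : ℕ, (∑ b : Finset.HasAntidiagonal.antidiagonal m, ((fun p : ℕ × ℕ => e (p.1 + p.2) *
      (s ^ p.1 / (p.1.factorial : ℂ)) * (t ^ p.2 / (p.2.factorial : ℂ))) ∘
      Finset.HasAntidiagonal.sigmaAntidiagonalEquivProd) ⟨m, b⟩) =
      e m * ((s + t) ^ m / (m.factorial : ℂ)) := by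
    intro m
    have h4 : (∑ b : Finset.HasAntidiagonal.antidiagonal m, ((fun p : ℕ × ℕ => e (p.1 + p.2) *
      (s ^ p.1 / (p.1.factorial : ℂ)) * (t ^ p.2 / (p.2.factorial : ℂ))) ∘
      Finset.HasAntidiagonal.sigmaAntidiagonalEquivProd) ⟨m, b⟩) =
      ∑ b ∈ Finset.HasAntidiagonal.antidiagonal m, e (b.1 + b.2) *
      (s ^ b.1 / (b.1.factorial : ℂ)) * (t ^ b.2 / (b.2.factorial : ℂ)) := by
      rw [← Finset.sum_coe_sort (Finset.HasAntidiagonal.antidiagonal m)]
      rfl
    rw [h4, (Commute.all s t).add_pow', Finset.sum_div, Finset.mul_sum]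
    refine Finset.sum_congr rfl fun p hp => ?_
    rw [Finset.HasAntidiagonal.mem_antidiagonal] at hp
    have h5 : ((m.choose p.1 : ℕ) : ℂ) = (m.factorial : ℂ) / (p.1.factorial * p.2.factorial) := by
      rw [← hp]
      exact Nat.cast_add_choose ℂ
    have h6 : (m.factorial : ℂ) ≠ 0 := by exact_mod_cast m.factorial_ne_zero
    rw [nsmul_eq_mul, h5, hp]
    field_simp
  have h7 : HasSum (fun m => e m * ((s + t) ^ m / (m.factorial : ℂ)))
      (∑' p : ℕ × ℕ, e (p.1 + p.2) * (s ^ p.1 / (p.1.factorial : ℂ)) *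
      (t ^ p.2 / (p.2.factorial : ℂ))) := by
    have h8 := h2
    simp only [h3] at h8
    exact h8
  rw [hH.unique h7]
  exact hsum.hasSum

/-- the coefficients of the expansion of a vanishing family of integrals vanish -/
theorem family {c : ℂ} {r : ℝ} (hr : 0 < r) {e : ℕ → ℂ → ℂ} {s W : ℂ → ℂ} {C K B D : ℝ}
    (hC : 0 ≤ C) (hK : 0 ≤ K) (hB : 0 ≤ B)
    (hec : ∀ m, ContinuousOn (e m) (sphere c r))
    (hsc : ContinuousOn s (sphere c r)) (hWc : ContinuousOn W (sphere c r))
    (he : ∀ m, ∀ ω ∈ sphere c r, ‖e m ω‖ ≤ C * K ^ m)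
    (hs : ∀ ω ∈ sphere c r, ‖s ω‖ ≤ B) (hW : ∀ ω ∈ sphere c r, ‖W ω‖ ≤ D) {H : ℂ → ℂ → ℂ}
    (hH : ∀ t : ℂ, ∀ ω ∈ sphere c r,
      HasSum (fun m => e m ω * ((s ω + t) ^ m / (m.factorial : ℂ))) (H t ω))
    (h0 : ∀ t : ℂ, ∮ ω in C(c, r), H t ω * W ω = 0) (i : ℕ) :
    HasSum (fun l : ℕ => ∮ ω in C(c, r), e (l + i) ω * (s ω ^ l / (l.factorial : ℂ)) * W ω) 0 := by
  set A : ℕ → ℕ → ℂ := fun l i => ∮ ω in C(c, r), e (l + i) ω * (s ω ^ l / (l.factorial : ℂ)) * W ω
    with hA
  have h1 : ∀ t : ℂ, HasSum (fun p : ℕ × ℕ => A p.1 p.2 * (t ^ p.2 / (p.2.factorial : ℂ))) 0 := by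
    intro t
    have h2 := hasSum_circle (c := c) hr
      (f := fun (p : ℕ × ℕ) ω => e (p.1 + p.2) ω * (s ω ^ p.1 / (p.1.factorial : ℂ)) *
        (t ^ p.2 / (p.2.factorial : ℂ)) * W ω) (g := fun ω => H t ω * W ω)
      (u := fun p => C * K ^ (p.1 + p.2) * (B ^ p.1 / (p.1.factorial : ℝ)) *
        (‖t‖ ^ p.2 / (p.2.factorial : ℝ)) * D)
      ((summable_prod_exp C K B ‖t‖ hK hB (norm_nonneg _)).mul_right D) ?_ ?_ ?_
    · rw [h0 t] at h2
      refine h2.congrY953 fun p => ?_
      rw [hA]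
      simp only
      rw [mul_comm, ← circleIntegral.integral_const_mul]
      congr 1
      ext ω
      ring
    · intro p
      exact (((hec _).mul ((hsc.pow _).div_const _)).mul continuousOn_const).mul hWc
    · intro p ω hω
      rw [norm_mul, norm_mul, norm_mul, norm_div, norm_div, norm_pow, norm_pow,
        Complex.norm_natCast, Complex.norm_natCast]
      have e1 := he (p.1 + p.2) ω hω
      have e2 := hs ω hω
      have e3 := hW ω hω
      gcongr
    · intro ω hω
      exact (hasSum_regroup hK (fun m => he m ω hω) (hH t ω hω)).mul_right (W ω)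
  have h2 : ∀ i, Summable fun l => A l i := by
    intro i
    have h3 := (h1 1).summable.comp_injective (i := fun l : ℕ => (l, i))
      (fun l l' h => by simpa using congrArg Prod.fst h)
    have h4 := h3.mul_right (i.factorial : ℂ)
    refine h4.congr fun l => ?_
    have h6 : (i.factorial : ℂ) ≠ 0 := by exact_mod_cast i.factorial_ne_zero
    simp only [Function.comp, one_pow]
    field_simp
  have h3 : ∀ t : ℂ, HasSum (fun i => ((∑' l, A l i) / (i.factorial : ℂ)) * t ^ i) 0 := by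
    intro t
    have h4 := h1 t
    rw [← (Equiv.prodComm ℕ ℕ).hasSum_iff] at h4
    have h4' : HasSum (fun p : ℕ × ℕ => A p.2 p.1 * (t ^ p.1 / (p.1.factorial : ℂ))) 0 :=
      h4.congrY953 fun p => rfl
    have h8 : ∀ i, HasSum (fun l => A l i * (t ^ i / (i.factorial : ℂ)))
        ((∑' l, A l i) * (t ^ i / (i.factorial : ℂ))) := fun i => (h2 i).hasSum.mul_right _
    have h5 := h4'.prod_fiberwise (g := fun i => (∑' l, A l i) * (t ^ i / (i.factorial : ℂ))) h8
    refine h5.congrY953 fun i => ?_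
    ring
  have h4 := coeff_zero h3 i
  have h6 : (i.factorial : ℂ) ≠ 0 := by exact_mod_cast i.factorial_ne_zero
  have h5 : ∑' l, A l i = 0 := by
    rcases div_eq_zero_iff.1 h4 with h | h
    · exact h
    · exact absurd h h6
  have h7 := (h2 i).hasSum
  rw [h5] at h7
  exact h7

/-! ### The two families -/

/-- coefficients of the first family -/
noncomputable def e1 (a : ℝ) (x : ℂ) : ℕ → ℂ
  | 0 => 0
  | 1 => 0
  | k + 2 => (-(a : ℂ)) ^ (k + 1) * x ^ k / (k.factorial : ℂ)

/-- coefficients of the second family -/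
noncomputable def e2 (a : ℝ) (X : ℂ) (k : ℕ) : ℂ :=
  (-(a : ℂ)) ^ (k + 1) * X ^ (k + 2) / ((k + 2).factorial : ℂ)

theorem inv_fac_le (k : ℕ) {y : ℝ} (hy : 0 ≤ y) : y / (k.factorial : ℝ) ≤ y := by
  have h1 : (1 : ℝ) ≤ (k.factorial : ℝ) := by exact_mod_cast Nat.one_le_iff_ne_zero.2 k.factorial_ne_zero
  exact div_le_self hy h1

theorem norm_e1 {a B : ℝ} (ha : 0 < a) (hB : 1 ≤ B) {x : ℂ} (hx : ‖x‖ ≤ B) (m : ℕ) :
    ‖e1 a x m‖ ≤ 1 * ((a + 1) * B) ^ m := by
  have hB0 : 0 ≤ B := by linarith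
  match m with
  | 0 => simp [e1]
  | 1 => simp [e1]; positivity
  | k + 2 =>
    have h1 : ‖e1 a x (k + 2)‖ = a ^ (k + 1) * ‖x‖ ^ k / (k.factorial : ℝ) := by
      simp [e1, abs_of_pos ha]
    rw [h1]
    refine (inv_fac_le k (by positivity)).trans ?_
    rw [one_mul, mul_pow]
    have h2 : a ^ (k + 1) ≤ (a + 1) ^ (k + 2) := by
      calc a ^ (k + 1) ≤ (a + 1) ^ (k + 1) := by gcongr; linarith
        _ ≤ (a + 1) ^ (k + 2) := pow_le_pow_right₀ (by linarith) (by omega)
    have h3 : ‖x‖ ^ k ≤ B ^ (k + 2) := by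
      calc ‖x‖ ^ k ≤ B ^ k := by gcongr
        _ ≤ B ^ (k + 2) := pow_le_pow_right₀ hB (by omega)
    exact mul_le_mul h2 h3 (by positivity) (by positivity)

theorem norm_e2 {a B : ℝ} (ha : 0 < a) (hB : 1 ≤ B) {X : ℂ} (hX : ‖X‖ ≤ B) (m : ℕ) :
    ‖e2 a X m‖ ≤ (a * B ^ 2) * (a * B) ^ m := by
  have hB0 : 0 ≤ B := by linarith
  have h1 : ‖e2 a X m‖ = a ^ (m + 1) * ‖X‖ ^ (m + 2) / ((m + 2).factorial : ℝ) := by
    unfold e2
    rw [norm_div, norm_mul, norm_pow, norm_pow, Complex.norm_natCast, norm_neg, Complex.norm_real,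
      Real.norm_of_nonneg ha.le]
  rw [h1]
  refine (inv_fac_le _ (by positivity)).trans ?_
  calc a ^ (m + 1) * ‖X‖ ^ (m + 2) ≤ a ^ (m + 1) * B ^ (m + 2) := by gcongr
    _ = (a * B ^ 2) * (a * B) ^ m := by ring

theorem alg1 (A t X x f1 f2 : ℂ) (k : ℕ) :
    A ^ (k + 1) * x ^ k / f1 * ((X + t) ^ (k + 2) / f2) =
      (X + t) ^ 2 * (A ^ (k + 1) * ((X + t) * x) ^ k / (f1 * f2)) := by
  rw [mul_pow, div_mul_div_comm]
  ring

theorem alg2 (A t X x f1 f2 : ℂ) (k : ℕ) :
    A ^ (k + 1) * X ^ (k + 2) / f2 * ((x + t) ^ k / f1) =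
      X ^ 2 * (A ^ (k + 1) * (X * (x + t)) ^ k / (f1 * f2)) := by
  rw [mul_pow, div_mul_div_comm]
  ring

theorem sum1 (hk : S_KAP) {a : ℝ} (ha : 0 < a) (x X t : ℂ) :
    HasSum (fun m => e1 a x m * ((X + t) ^ m / (m.factorial : ℂ)))
      ((X - -t) ^ 2 * kap a ((X - -t) * (x - 0))) := by
  rw [sub_neg_eq_add, sub_zero]
  have h1 := ((hk a ha.le).2.2 ((X + t) * x)).mul_left ((X + t) ^ 2)
  have h2 : HasSum (fun k => e1 a x (k + 2) * ((X + t) ^ (k + 2) / ((k + 2).factorial : ℂ)))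
      ((X + t) ^ 2 * kap a ((X + t) * x)) :=
    h1.congrY953 fun k => alg1 _ _ _ _ _ _ _
  have h3 := (hasSum_nat_add_iff (f := fun m => e1 a x m * ((X + t) ^ m / (m.factorial : ℂ))) 2).1 h2
  have h4 : ∑ m ∈ Finset.range 2, e1 a x m * ((X + t) ^ m / (m.factorial : ℂ)) = 0 := by
    rw [Finset.sum_range_succ, Finset.sum_range_one]
    simp [e1]
  rw [h4, add_zero] at h3
  exact h3

theorem sum2 (hk : S_KAP) {a : ℝ} (ha : 0 < a) (x X t : ℂ) :
    HasSum (fun m => e2 a X m * ((x + t) ^ m / (m.factorial : ℂ)))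
      ((X - 0) ^ 2 * kap a ((X - 0) * (x - -t))) := by
  rw [sub_neg_eq_add, sub_zero]
  have h1 := ((hk a ha.le).2.2 (X * (x + t))).mul_left (X ^ 2)
  exact h1.congrY953 fun k => alg2 _ _ _ _ _ _ _

/-! ### The end of the proof -/

theorem fib_neg (m : ℕ) : (fun p : ℕ × ℕ => (p.1 : ℤ) - p.2) ⁻¹' {-(m : ℤ)} =
    Set.range fun l : ℕ => (l, l + m) := by
  ext ⟨p, q⟩
  simp only [Set.mem_preimage, Set.mem_singleton_iff, Set.mem_range, Prod.mk.injEq]
  constructor
  · intro h
    exact ⟨p, rfl, by omega⟩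
  · rintro ⟨l, rfl, rfl⟩
    push_cast
    ring

theorem fib_pos (m : ℕ) : (fun p : ℕ × ℕ => (p.1 : ℤ) - p.2) ⁻¹' {(m : ℤ)} =
    Set.range fun l : ℕ => (l + m, l) := by
  ext ⟨p, q⟩
  simp only [Set.mem_preimage, Set.mem_singleton_iff, Set.mem_range, Prod.mk.injEq]
  constructor
  · intro h
    exact ⟨q, by omega, rfl⟩
  · rintro ⟨l, rfl, rfl⟩
    push_cast
    ring

/-- **From the Bessel kernel to exponentials.** -/
theorem gen : S_GEN := by
  intro hk a c r X x W ha hr hX hx hW h α β hαβ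
  obtain ⟨B1, hB1⟩ := (isCompact_sphere c r).exists_bound_of_continuousOn hX
  obtain ⟨B2, hB2⟩ := (isCompact_sphere c r).exists_bound_of_continuousOn hx
  obtain ⟨B3, hB3⟩ := (isCompact_sphere c r).exists_bound_of_continuousOn hW
  obtain ⟨B, hB, hXB, hxB, hWB⟩ : ∃ B : ℝ, 1 ≤ B ∧ (∀ ω ∈ sphere c r, ‖X ω‖ ≤ B) ∧
      (∀ ω ∈ sphere c r, ‖x ω‖ ≤ B) ∧ ∀ ω ∈ sphere c r, ‖W ω‖ ≤ B := by
    refine ⟨max 1 (max B1 (max B2 B3)), le_max_left _ _, fun ω hω => ?_, fun ω hω => ?_,
      fun ω hω => ?_⟩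
    · exact (hB1 ω hω).trans ((le_max_left _ _).trans (le_max_right _ _))
    · exact (hB2 ω hω).trans ((le_max_left _ _).trans ((le_max_right _ _).trans
        (le_max_right _ _)))
    · exact (hB3 ω hω).trans ((le_max_right _ _).trans ((le_max_right _ _).trans
        (le_max_right _ _)))
  have hB0 : 0 ≤ B := by linarith
  have ha' : (a : ℂ) ≠ 0 := by exact_mod_cast ha.ne'
  have hα0 : α ≠ 0 := fun h0 => ha' (by rw [h0, zero_mul] at hαβ; exact neg_eq_zero.1 hαβ.symm)
  have hβ0 : β ≠ 0 := fun h0 => ha' (by rw [h0, mul_zero] at hαβ; exact neg_eq_zero.1 hαβ.symm)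
  have ce1 : ∀ m, ContinuousOn (fun ω => e1 a (x ω) m) (sphere c r) := by
    intro m
    match m with
    | 0 => exact continuousOn_const
    | 1 => exact continuousOn_const
    | k + 2 => exact (continuousOn_const.mul (hx.pow k)).div_const _
  have ce2 : ∀ m, ContinuousOn (fun ω => e2 a (X ω) m) (sphere c r) := by
    intro m
    exact (continuousOn_const.mul (hX.pow _)).div_const _
  have f1 := family (c := c) (e := fun m ω => e1 a (x ω) m) (s := X) (W := W) (C := 1)
    (K := (a + 1) * B) (B := B) (D := B) hr zero_le_one (by positivity) hB0 ce1 hX hW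
    (fun m ω hω => norm_e1 ha hB (hxB ω hω) m) hXB hWB (fun t ω _ => sum1 hk ha (x ω) (X ω) t)
    (fun t => h (-t) 0)
  have f2 := family (c := c) (e := fun m ω => e2 a (X ω) m) (s := x) (W := W) (C := a * B ^ 2)
    (K := a * B) (B := B) (D := B) hr (by positivity) (by positivity) hB0 ce2 hx hW
    (fun m ω hω => norm_e2 ha hB (hXB ω hω) m) hxB hWB (fun t ω _ => sum2 hk ha (x ω) (X ω) t)
    (fun t => h 0 (-t))
  set T : ℕ × ℕ → ℂ := fun p => ∮ ω in C(c, r), ((β * X ω) ^ p.1 / (p.1.factorial : ℂ)) *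
    ((α * x ω) ^ p.2 / (p.2.factorial : ℂ)) * W ω with hT
  have hsumT : HasSum T (∮ ω in C(c, r), exp (α * x ω + β * X ω) * W ω) := by
    refine hasSum_circle (c := c) hr
      (u := fun p => 1 * 1 ^ (p.1 + p.2) * ((‖β‖ * B) ^ p.1 / (p.1.factorial : ℝ)) *
        ((‖α‖ * B) ^ p.2 / (p.2.factorial : ℝ)) * B)
      ((summable_prod_exp 1 1 (‖β‖ * B) (‖α‖ * B) zero_le_one (by positivity)
        (by positivity)).mul_right B) ?_ ?_ ?_
    · intro p
      exact ((((continuousOn_const.mul hX).pow _).div_const _).mul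
        (((continuousOn_const.mul hx).pow _).div_const _)).mul hW
    · intro p ω hω
      rw [norm_mul, norm_mul, norm_div, norm_div, norm_pow, norm_pow, norm_mul, norm_mul,
        Complex.norm_natCast, Complex.norm_natCast, one_pow, one_mul, one_mul]
      have g1 := hXB ω hω
      have g2 := hxB ω hω
      have g3 := hWB ω hω
      gcongr
    · intro ω hω
      have g1 : HasSum (fun m : ℕ => (1 : ℂ) * ((β * X ω + α * x ω) ^ m / (m.factorial : ℂ)))
          (exp (α * x ω + β * X ω)) := by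
        rw [add_comm (α * x ω), Complex.exp_eq_exp_ℂ]
        refine (NormedSpace.expSeries_div_hasSum_exp (β * X ω + α * x ω)).congrY953 fun m => ?_
        rw [one_mul]
      have g2 := hasSum_regroup (e := fun _ => (1 : ℂ)) (C := 1) (K := 1) zero_le_one
        (fun m => by simp) g1
      refine (g2.mul_right (W ω)).congrY953 fun p => ?_
      rw [one_mul]
  have hfib := hsumT.tsum_fiberwise fun p : ℕ × ℕ => (p.1 : ℤ) - p.2
  have hz : ∀ n : ℤ, ∑' b : (fun p : ℕ × ℕ => (p.1 : ℤ) - p.2) ⁻¹' {n}, T b = 0 := by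
    intro n
    rcases le_or_gt n 0 with hn | hn
    · obtain ⟨m, rfl⟩ : ∃ m : ℕ, n = -(m : ℤ) := ⟨n.natAbs, by omega⟩
      rw [fib_neg, tsum_range T (fun l l' hl => by simpa using congrArg Prod.fst hl)]
      have g1 := (f1 (m + 2)).mul_left (α ^ m / (-(a : ℂ)) ^ (m + 1))
      rw [mul_zero] at g1
      refine (g1.congrY953 fun l => ?_).tsum_eq
      rw [hT]
      simp only
      rw [← circleIntegral.integral_const_mul]
      congr 1
      ext ω
      have e : e1 a (x ω) (l + (m + 2)) =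
        (-(a : ℂ)) ^ (l + m + 1) * x ω ^ (l + m) / ((l + m).factorial : ℂ) := rfl
      rw [e, ← hαβ, mul_pow, mul_pow]
      have q1 : ((l + m).factorial : ℂ) ≠ 0 := by exact_mod_cast (l + m).factorial_ne_zero
      have q2 : (l.factorial : ℂ) ≠ 0 := by exact_mod_cast l.factorial_ne_zero
      generalize ((l + m).factorial : ℂ) = F1 at *
      generalize (l.factorial : ℂ) = F2 at *
      field_simp
      try ring
    · obtain ⟨m, rfl⟩ : ∃ m : ℕ, n = ((m + 1 : ℕ) : ℤ) := ⟨n.toNat - 1, by omega⟩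
      rw [fib_pos, tsum_range T (fun l l' hl => by simpa using congrArg Prod.snd hl)]
      rcases m with _ | m
      · have g0 := (hasSum_nat_add_iff' 1).2 (f1 1)
        have g00 : ∑ l ∈ Finset.range 1, (∮ ω in C(c, r), e1 a (x ω) (l + 1) *
            (X ω ^ l / (l.factorial : ℂ)) * W ω) = 0 := by
          rw [Finset.sum_range_one]
          have : (fun ω => e1 a (x ω) (0 + 1) * (X ω ^ 0 / ((Nat.factorial 0 : ℕ) : ℂ)) * W ω) =
              fun _ => 0 := by
            ext ω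
            simp [e1]
          rw [this]
          unfold circleIntegral
          simp
        rw [g00, sub_zero] at g0
        have g1 := g0.mul_left (β / (-(a : ℂ)))
        rw [mul_zero] at g1
        refine (g1.congrY953 fun l => ?_).tsum_eq
        rw [hT]
        simp only
        rw [← circleIntegral.integral_const_mul]
        congr 1
        ext ω
        have e : e1 a (x ω) (l + 1 + 1) =
          (-(a : ℂ)) ^ (l + 1) * x ω ^ l / (l.factorial : ℂ) := rfl
        rw [e, ← hαβ, mul_pow, mul_pow]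
        have q1 : ((l + (0 + 1)).factorial : ℂ) ≠ 0 := by
          exact_mod_cast (l + (0 + 1)).factorial_ne_zero
        have q2 : (l.factorial : ℂ) ≠ 0 := by exact_mod_cast l.factorial_ne_zero
        rw [zero_add] at *
        generalize ((l + 1).factorial : ℂ) = F1 at *
        generalize (l.factorial : ℂ) = F2 at *
        field_simp
        try ring
      · have g1 := (f2 m).mul_left (β ^ (m + 2) / (-(a : ℂ)) ^ (m + 1))
        rw [mul_zero] at g1
        refine (g1.congrY953 fun l => ?_).tsum_eq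
        rw [hT]
        simp only
        rw [← circleIntegral.integral_const_mul]
        congr 1
        ext ω
        have e : e2 a (X ω) (l + m) =
          (-(a : ℂ)) ^ (l + m + 1) * X ω ^ (l + m + 2) / ((l + m + 2).factorial : ℂ) := rfl
        rw [e, ← hαβ, mul_pow, mul_pow, show l + (m + 1 + 1) = l + m + 2 by ring]
        have q1 : ((l + m + 2).factorial : ℂ) ≠ 0 := by
          exact_mod_cast (l + m + 2).factorial_ne_zero
        have q2 : (l.factorial : ℂ) ≠ 0 := by exact_mod_cast l.factorial_ne_zero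
        generalize ((l + m + 2).factorial : ℂ) = F1 at *
        generalize (l.factorial : ℂ) = F2 at *
        field_simp
        try ring
  have h9 : HasSum (fun _ : ℤ => (0 : ℂ)) (∮ ω in C(c, r), exp (α * x ω + β * X ω) * W ω) :=
    hfib.congrY953 fun n => (hz n).symm
  exact h9.unique hasSum_zero

end Pool.Agent.Y953.SC
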